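import Pool.Agent.H21.L.R_seed8.W189.LC.Euler

/-! Mittag-Leffler sums of Euler products with quadratic factors: statements in terms of the
continued function. -/

set_option autoImplicit false

namespace Pool.Agent.W189.LC

open Complex MeasureTheory Filter Topology Set
open Pool.Agent.W189.ML

variable {P : Type} {q a e : P → ℝ} {F : ℂ → ℂ}

/-- the smoothed logarithm of the Euler product,
`∑_{v, k ≥ 1} (α_v^k + β_v^k) / (k q_v^k Γ(1 + k log q_v / T))` -/
noncomputable def sm (q a e : P → ℝ) (T : ℝ) : ℝ :=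
  ∑' x : P × ℕ, cf q a e x / Real.Gamma (1 + fr q x / T)

theorem sm_eq (q a e : P → ℝ) (T : ℝ) : sm q a e T = mean (fr q) (cf q a e) T := by
  unfold sm mean om
  refine tsum_congr fun x => ?_
  rw [div_eq_mul_inv]

theorem EP.sm_summable (E : EP q a e) {T : ℝ} (hT : 0 < T) :
    Summable fun x : P × ℕ => |cf q a e x| / Real.Gamma (1 + fr q x / T) := by
  refine Summable.of_nonneg_of_le (fun x => ?_) (fun x => ?_)
    ((E.summable (σ := 2) (by norm_num)).mul_left (Real.exp (Real.exp (2 * T)) + 1))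
  · have h1 : 0 ≤ fr q x / T := div_nonneg (E.fr_nonneg x) hT.le
    have := Real.Gamma_pos_of_pos (by linarith : 0 < 1 + fr q x / T)
    positivity
  · have h1 : 0 ≤ fr q x / T := div_nonneg (E.fr_nonneg x) hT.le
    have h2 := om_le (a := 2 * T) (v := fr q x / T) (by positivity) h1
    have h3 : 2 * T * (fr q x / T) = 2 * fr q x := by field_simp
    rw [h3] at h2
    rw [div_eq_mul_inv]
    calc |cf q a e x| * (Real.Gamma (1 + fr q x / T))⁻¹ ≤
        |cf q a e x| * ((Real.exp (Real.exp (2 * T)) + 1) * Real.exp (-(2 * fr q x))) :=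
          mul_le_mul_of_nonneg_left h2 (abs_nonneg _)
      _ = _ := by ring

theorem order_shift (F : ℂ → ℂ) (x : ℝ) :
    meromorphicOrderAt (fun w => F (1 + w)) (x : ℂ) = meromorphicOrderAt F ((1 + x : ℝ) : ℂ) := by
  have h1 : (fun w : ℂ => F (1 + w)) = F ∘ (· + 1) := by
    funext w; simp [add_comm]
  rw [h1, meromorphicOrderAt_comp_add_const_eq_meromorphicOrderAt]
  push_cast
  rw [add_comm]

theorem order_shift0 (F : ℂ → ℂ) :
    meromorphicOrderAt (fun w => F (1 + w)) 0 = meromorphicOrderAt F 1 := by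
  have := order_shift F 0
  simpa using this

theorem coeff_shift0 (F : ℂ → ℂ) :
    meromorphicTrailingCoeffAt (fun w => F (1 + w)) 0 = meromorphicTrailingCoeffAt F 1 := by
  have h1 : (fun w : ℂ => F (1 + w)) = F ∘ (· + 1) := by
    funext w; simp [add_comm]
  rw [h1, meromorphicTrailingCoeffAt_comp_add_const_eq_meromorphicTrailingCoeffAt]
  simp

theorem forall_shift (F : ℂ → ℂ) : (∀ x ∈ Ioc (0 : ℝ) 1,
    meromorphicOrderAt (fun w => F (1 + w)) (x : ℂ) = 0) ↔
    ∀ σ ∈ Ioc (1 : ℝ) 2, meromorphicOrderAt F (σ : ℂ) = 0 := by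
  constructor
  · intro h σ hσ
    have := h (σ - 1) ⟨by linarith [hσ.1], by linarith [hσ.2]⟩
    rw [order_shift] at this
    rwa [show 1 + (σ - 1) = σ by ring] at this
  · intro h x hx
    rw [order_shift]
    exact h (1 + x) ⟨by linarith [hx.1], by linarith [hx.2]⟩

variable (hmer : ∀ x ∈ Icc (1 : ℝ) 3, MeromorphicAt F (x : ℂ))
  (hF : ∀ s : ℂ, 2 < s.re →
      HasProd (fun v => (1 - a v * (q v : ℂ) ^ (-s) + e v * ((q v : ℂ) ^ (-s)) ^ 2)⁻¹) (F s))

include hmer hF

theorem EP.order_ne_top (E : EP q a e) {x : ℝ} (hx : x ∈ Icc (1 : ℝ) 3) :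
    meromorphicOrderAt F (x : ℂ) ≠ ⊤ := by
  have h1 := (E.mdata hmer hF).order_ne_top (x := x - 1) ⟨by linarith [hx.1], by linarith [hx.2]⟩
  rw [order_shift] at h1
  rwa [show 1 + (x - 1) = x by ring] at h1

theorem EP.order_right (E : EP q a e) {σ : ℝ} (hσ : 2 < σ) :
    meromorphicOrderAt F (σ : ℂ) = 0 := by
  have h1 := (E.mdata hmer hF).order_right (w := ((σ - 1 : ℝ) : ℂ)) (by
    rw [Complex.ofReal_re]; linarith)
  rw [order_shift] at h1
  rwa [show 1 + (σ - 1) = σ by ring] at h1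

/-- no real zeros or poles to the right of `1` -/
theorem EP.regular [Countable P] (E : EP q a e) {m : ℤ} (hm : meromorphicOrderAt F 1 = m)
    (hz : ∀ σ ∈ Ioc (1 : ℝ) 2, meromorphicOrderAt F (σ : ℂ) = 0) :
    (meromorphicTrailingCoeffAt F 1).im = 0 ∧ 0 < (meromorphicTrailingCoeffAt F 1).re ∧
    ∃ C T₀ : ℝ, 0 ≤ C ∧ 1 ≤ T₀ ∧ ∀ T ≥ T₀,
      |sm q a e T - (Real.log (meromorphicTrailingCoeffAt F 1).re - m * (Real.log T - kap))| ≤
        C / T := by
  have h1 := (E.mdata hmer hF).mean_regular (m := m) (by rw [order_shift0]; exact hm)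
    ((forall_shift F).2 hz)
  rw [coeff_shift0] at h1
  simp only [sm_eq]
  exact h1

/-- a real zero or pole to the right of `1` -/
theorem EP.singular [Countable P] (E : EP q a e)
    (hz : ¬ ∀ σ ∈ Ioc (1 : ℝ) 2, meromorphicOrderAt F (σ : ℂ) = 0) :
    ∃ (β : ℝ) (m : ℤ), 1 < β ∧ β ≤ 2 ∧ m ≠ 0 ∧ meromorphicOrderAt F (β : ℂ) = m ∧
      (∀ σ : ℝ, β < σ → meromorphicOrderAt F (σ : ℂ) = 0) ∧
      Tendsto (fun T : ℝ => sm q a e T / grow ((β - 1) * T)) atTop (𝓝 (-m)) ∧
      ∀ y < β - 1, ∀ᶠ T : ℝ in atTop, Real.exp (Real.exp (y * T)) ≤ |sm q a e T| := by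
  have D := E.mdata hmer hF
  obtain ⟨x₀, x₁, h0, h1, h2, h3, m, hm0, hm, h4⟩ := D.rightmost
    (fun h => hz ((forall_shift F).1 h))
  obtain ⟨h5, h6⟩ := D.growth h2 h3 h1 hm0 hm h4
  refine ⟨1 + x₀, m, by linarith, by linarith, hm0, by rw [← order_shift]; exact hm, ?_, ?_, ?_⟩
  · intro σ hσ
    by_cases h : σ ≤ 3
    · have h7 := h4 (σ - 1) ⟨by linarith, by linarith⟩ (by
        intro h8
        linarith)
      rw [order_shift] at h7
      rwa [show 1 + (σ - 1) = σ by ring] at h7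
    · push Not at h
      exact E.order_right hmer hF (by linarith)
  · rw [add_sub_cancel_left]
    simp only [sm_eq]
    exact h5
  · rw [add_sub_cancel_left]
    simp only [sm_eq]
    exact h6

/-- the equivalence -/
theorem EP.iff [Countable P] (E : EP q a e) (r : ℤ) {B : ℝ} (hB : 0 < B) :
    ((∀ σ : ℝ, 1 < σ → meromorphicOrderAt F (σ : ℂ) = 0) ∧ meromorphicOrderAt F 1 = r ∧
      meromorphicTrailingCoeffAt F 1 = B) ↔
    Tendsto (fun T : ℝ => sm q a e T + r * Real.log T) atTop (𝓝 (Real.log B + r * kap)) := by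
  have h1 := (E.mdata hmer hF).iff r hB
  rw [forall_shift, order_shift0, coeff_shift0] at h1
  simp only [sm_eq]
  rw [← h1]
  constructor
  · rintro ⟨h2, h3⟩
    exact ⟨fun σ hσ => h2 σ hσ.1, h3⟩
  · rintro ⟨h2, h3⟩
    refine ⟨fun σ hσ => ?_, h3⟩
    by_cases h : σ ≤ 2
    · exact h2 σ ⟨hσ, h⟩
    · push Not at h
      exact E.order_right hmer hF h

end Pool.Agent.W189.LC
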