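import Pool.Agent.H21.L.R_seed8.W189.LC.Mero

/-! The dichotomy for Mittag-Leffler means. -/

set_option autoImplicit false

namespace Pool.Agent.W189.LC

open Complex MeasureTheory Filter Topology Set
open Pool.Agent.W189.ML

variable {ι : Type} {lam c : ι → ℝ} {Φ : ℂ → ℂ}

theorem MData.order_ne_top (D : MData lam c Φ) {x : ℝ} (hx : x ∈ Icc (0 : ℝ) 2) :
    meromorphicOrderAt Φ (x : ℂ) ≠ ⊤ := by
  set U : Set ℂ := (fun x : ℝ => (x : ℂ)) '' Icc 0 2 with hU
  have hm : MeromorphicOn Φ U := by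
    rintro _ ⟨y, hy, rfl⟩
    exact D.mero y hy
  have hc : IsPreconnected U :=
    isPreconnected_Icc.image _ (Continuous.continuousOn (by fun_prop))
  refine hm.meromorphicOrderAt_ne_top_of_isPreconnected hc (x := ((2 : ℝ) : ℂ))
    ⟨2, ⟨by norm_num, le_rfl⟩, rfl⟩ ⟨x, hx, rfl⟩ ?_
  rw [D.order_right (by simp)]
  exact WithTop.zero_ne_top

theorem MData.finite_zeros (D : MData lam c Φ) :
    {x : ℝ | x ∈ Icc (0 : ℝ) 2 ∧ meromorphicOrderAt Φ (x : ℂ) ≠ 0}.Finite := by
  set U : Set ℂ := (fun x : ℝ => (x : ℂ)) '' Icc 0 2 with hU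
  have hm : MeromorphicOn Φ U := by
    rintro _ ⟨y, hy, rfl⟩
    exact D.mero y hy
  have hcp : IsCompact U := isCompact_Icc.image (by fun_prop)
  have hfin := (MeromorphicOn.divisor Φ U).finiteSupport hcp
  refine (hfin.preimage (f := fun x : ℝ => (x : ℂ)) (Complex.ofReal_injective.injOn)).subset ?_
  rintro x ⟨hx, hx0⟩
  have hxU : (x : ℂ) ∈ U := ⟨x, hx, rfl⟩
  simp only [Set.mem_preimage, Function.mem_support]
  rw [MeromorphicOn.divisor_apply hm hxU]
  have := D.order_ne_top hx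
  intro h
  rw [WithTop.untop₀_eq_zero] at h
  rcases h with h | h
  · exact hx0 h
  · exact this h

/-- the rightmost zero or pole -/
theorem MData.rightmost (D : MData lam c Φ)
    (h : ¬ ∀ x ∈ Ioc (0 : ℝ) 1, meromorphicOrderAt Φ (x : ℂ) = 0) :
    ∃ x₀ x₁ : ℝ, 0 < x₀ ∧ x₀ ≤ 1 ∧ 0 ≤ x₁ ∧ x₁ < x₀ ∧ ∃ m : ℤ, m ≠ 0 ∧
      meromorphicOrderAt Φ (x₀ : ℂ) = m ∧
      ∀ x ∈ Icc x₁ 2, x ≠ x₀ → meromorphicOrderAt Φ (x : ℂ) = 0 := by
  set Z : Set ℝ := {x : ℝ | x ∈ Icc (0 : ℝ) 2 ∧ meromorphicOrderAt Φ (x : ℂ) ≠ 0} with hZ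
  have hfin : Z.Finite := D.finite_zeros
  push Not at h
  obtain ⟨y, hy, hy0⟩ := h
  have hyZ : y ∈ Z := ⟨⟨hy.1.le, by linarith [hy.2]⟩, hy0⟩
  obtain ⟨x₀, hx₀Z, hmax⟩ := hfin.exists_maximal ⟨y, hyZ⟩
  have hmax' : ∀ z ∈ Z, z ≤ x₀ := by
    intro z hz
    by_contra hlt
    push Not at hlt
    exact absurd (hmax hz hlt.le) (not_le.2 hlt)
  have hx0 : 0 < x₀ := hy.1.trans_le (hmax' y hyZ)
  have hx1 : x₀ ≤ 1 := by
    by_contra hlt
    push Not at hlt
    exact hx₀Z.2 (D.order_right (by simpa using hlt))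
  -- the next one
  set Z' : Set ℝ := {z ∈ Z | z < x₀} ∪ {0} with hZ'
  have hfin' : Z'.Finite := (hfin.subset (fun z hz => hz.1)).union (Set.finite_singleton 0)
  obtain ⟨x₂, hx₂Z, hmax₂⟩ := hfin'.exists_maximal ⟨0, Or.inr rfl⟩
  have hmax₂' : ∀ z ∈ Z', z ≤ x₂ := by
    intro z hz
    by_contra hlt
    push Not at hlt
    exact absurd (hmax₂ hz hlt.le) (not_le.2 hlt)
  have hx₂0 : 0 ≤ x₂ := hmax₂' 0 (Or.inr rfl)
  have hx₂ : x₂ < x₀ := by
    rcases hx₂Z with h | h
    · exact h.2
    · rw [Set.mem_singleton_iff] at h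
      rw [h]; exact hx0
  have htop := D.order_ne_top hx₀Z.1
  obtain ⟨m, hm⟩ := WithTop.ne_top_iff_exists.1 htop
  refine ⟨x₀, (x₂ + x₀) / 2, hx0, hx1, by linarith, by linarith, m, ?_, hm.symm, ?_⟩
  · intro h0
    rw [h0] at hm
    exact hx₀Z.2 hm.symm
  · intro x hx hxx
    by_contra hne
    have hxZ : x ∈ Z := ⟨⟨by linarith [hx.1], hx.2⟩, hne⟩
    have h1 := hmax' x hxZ
    have h2 : x < x₀ := lt_of_le_of_ne h1 hxx
    have h3 := hmax₂' x (Or.inl ⟨hxZ, h2⟩)
    linarith [hx.1]

theorem exp_gap' {x₀ x₁ : ℝ} (h0 : 0 ≤ x₁) (h1 : x₁ < x₀) :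
    ∀ᶠ T : ℝ in atTop, Real.exp (x₁ * T) + 1 + 2 * T ≤ Real.exp (x₀ * T - 2) := by
  have hd : 0 < x₀ - x₁ := by linarith
  have h2 : ∀ᶠ T : ℝ in atTop, 2 + 2 * T ≤ Real.exp ((x₀ - x₁) * T - 2) := by
    have h3 := lin_le_exp (4 / (x₀ - x₁))
    have h4 : Tendsto (fun T : ℝ => (x₀ - x₁) * T - 2) atTop atTop :=
      tendsto_atTop_add_const_right _ _ (tendsto_id.const_mul_atTop hd)
    filter_upwards [h4.eventually h3, eventually_ge_atTop (1 + 4 / (x₀ - x₁))] with T h5 h6
    have h7 : 4 / (x₀ - x₁) * ((x₀ - x₁) * T - 2) = 4 * T - 2 * (4 / (x₀ - x₁)) := by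
      field_simp
    rw [h7] at h5
    linarith
  filter_upwards [h2, eventually_ge_atTop 0] with T h3 h4
  have h5 : Real.exp (x₀ * T - 2) = Real.exp (x₁ * T) * Real.exp ((x₀ - x₁) * T - 2) := by
    rw [← Real.exp_add]
    congr 1
    ring
  have h6 : 1 ≤ Real.exp (x₁ * T) := Real.one_le_exp (by positivity)
  rw [h5]
  nlinarith

/-- **growth of the mean if there is a zero or a pole in `(0, 1]`** -/
theorem MData.growth [Countable ι] (D : MData lam c Φ) {x₀ x₁ : ℝ} (h0 : 0 ≤ x₁)
    (h01 : x₁ < x₀) (h1 : x₀ ≤ 1) {m : ℤ} (hm0 : m ≠ 0) (hm : meromorphicOrderAt Φ (x₀ : ℂ) = m)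
    (hz : ∀ x ∈ Icc x₁ 2, x ≠ x₀ → meromorphicOrderAt Φ (x : ℂ) = 0) :
    Tendsto (fun T : ℝ => mean lam c T / grow (x₀ * T)) atTop (𝓝 (-m)) ∧
    ∀ y < x₀, ∀ᶠ T : ℝ in atTop, Real.exp (Real.exp (y * T)) ≤ |mean lam c T| := by
  obtain ⟨C, T₀, hC⟩ := D.mean_singular h0 h01.le h1 hm hz
  have hx0 : 0 < x₀ := by linarith
  have hm1 : (1 : ℝ) ≤ |(m : ℝ)| := by
    have := Int.one_le_abs hm0
    exact_mod_cast this
  set A : ℝ := |C| + |(m : ℝ)| with hA
  have hA0 : 0 ≤ A := by positivity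
  have hgr : ∀ᶠ T : ℝ in atTop, Real.exp (Real.exp (x₀ * T - 2)) ≤ grow (x₀ * T) := by
    filter_upwards [eventually_ge_atTop (5 / x₀)] with T h4
    refine grow_ge ?_
    rw [div_le_iff₀ hx0] at h4
    linarith
  have key : ∀ᶠ T : ℝ in atTop, |mean lam c T + m * grow (x₀ * T)| ≤
      A * Real.exp (-T) * grow (x₀ * T) := by
    filter_upwards [exp_gap' h0 h01, hgr, eventually_ge_atTop T₀, eventually_ge_atTop (1 : ℝ)]
      with T h2 h6 h3 hT1
    set g := grow (x₀ * T) with hg
    have h7 := hC T h3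
    rw [← hg] at h7
    have hlogT : Real.log T ≤ T := (Real.log_le_sub_one_of_pos (by linarith)).trans (by linarith)
    have hlogT0 : 0 ≤ Real.log T := Real.log_nonneg hT1
    set ee := Real.exp (Real.exp (x₁ * T)) with hee
    have h1e : 1 ≤ ee := Real.one_le_exp (Real.exp_pos _).le
    have h8 : T * ee ≤ Real.exp (-T) * g := by
      have h9 : T ≤ Real.exp T := by
        have := Real.add_one_le_exp T
        linarith
      calc T * ee ≤ Real.exp T * ee := by gcongr
        _ = Real.exp (-T) * Real.exp (Real.exp (x₁ * T) + 2 * T) := by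
          rw [hee, ← Real.exp_add, ← Real.exp_add]
          congr 1
          ring
        _ ≤ Real.exp (-T) * Real.exp (Real.exp (x₀ * T - 2)) := by
          gcongr
          linarith
        _ ≤ _ := by gcongr
    have h10 : |mean lam c T + m * g| ≤ |C| * ee + |(m : ℝ)| * Real.log T := by
      have h11 : mean lam c T + m * g =
          (mean lam c T + m * (Real.log T + g)) + (-(m * Real.log T)) := by ring
      rw [h11]
      refine (abs_add_le _ _).trans (add_le_add (h7.trans ?_) ?_)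
      · exact mul_le_mul_of_nonneg_right (le_abs_self C) (by positivity)
      · rw [abs_neg, abs_mul, abs_of_nonneg hlogT0]
    refine h10.trans ?_
    have h12 : |C| * ee ≤ |C| * (T * ee) := by
      gcongr
      nlinarith
    have h13 : |(m : ℝ)| * Real.log T ≤ |(m : ℝ)| * (T * ee) := by
      gcongr
      nlinarith
    calc |C| * ee + |(m : ℝ)| * Real.log T ≤ A * (T * ee) := by rw [hA]; linarith
      _ ≤ A * (Real.exp (-T) * g) := by gcongr
      _ = _ := by ring
  have hdec : Tendsto (fun T : ℝ => A * Real.exp (-T)) atTop (𝓝 0) := by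
    have := Real.tendsto_exp_neg_atTop_nhds_zero.const_mul A
    simpa using this
  constructor
  · rw [tendsto_iff_norm_sub_tendsto_zero]
    refine squeeze_zero' (g := fun T => A * Real.exp (-T))
      (Eventually.of_forall fun X => norm_nonneg _) ?_ hdec
    filter_upwards [key, hgr] with T h2 h3
    have hg : 0 < grow (x₀ * T) := (Real.exp_pos _).trans_le h3
    have h4 : mean lam c T / grow (x₀ * T) - -(m : ℝ) =
        (mean lam c T + m * grow (x₀ * T)) / grow (x₀ * T) := by
      field_simp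
      ring
    rw [h4, Real.norm_eq_abs, abs_div, abs_of_pos hg, div_le_iff₀ hg]
    exact h2
  · intro y hy
    set y' := max y 0 with hy'
    have hc0 : 0 ≤ y' := le_max_right _ _
    have hc1 : y' < x₀ := max_lt hy hx0
    have e4 : ∀ᶠ T : ℝ in atTop, A * Real.exp (-T) ≤ 1 / 2 :=
      hdec.eventually (eventually_le_nhds (by norm_num))
    filter_upwards [key, hgr, exp_gap' hc0 hc1, e4, eventually_ge_atTop (1 : ℝ)]
      with T h2 h3 h4 h5 h6
    set g := grow (x₀ * T) with hg
    have hg0 : 0 < g := (Real.exp_pos _).trans_le h3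
    have h8 : Real.exp (y * T) ≤ Real.exp (y' * T) := by
      apply Real.exp_le_exp.2
      exact mul_le_mul_of_nonneg_right (le_max_left _ _) (by linarith)
    have h9 : g / 2 ≤ |mean lam c T| := by
      have h11 : A * Real.exp (-T) * g ≤ 1 / 2 * g := by gcongr
      have h12 : g ≤ |(m : ℝ) * g| := by
        rw [abs_mul, abs_of_pos hg0]
        exact le_mul_of_one_le_left hg0.le hm1
      have h13 : |(m : ℝ) * g| ≤ |mean lam c T| + |mean lam c T + m * g| := by
        have h14 : (m : ℝ) * g = -mean lam c T + (mean lam c T + m * g) := by ring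
        nth_rewrite 1 [h14]
        refine (abs_add_le _ _).trans ?_
        rw [abs_neg]
      linarith
    have h10 : 2 * Real.exp (Real.exp (y * T)) ≤ g := by
      have h11 : (2 : ℝ) ≤ Real.exp 1 := by
        have := Real.add_one_le_exp (1 : ℝ)
        linarith
      calc 2 * Real.exp (Real.exp (y * T)) ≤ Real.exp 1 * Real.exp (Real.exp (y' * T)) := by gcongr
        _ = Real.exp (1 + Real.exp (y' * T)) := by rw [Real.exp_add]
        _ ≤ Real.exp (Real.exp (x₀ * T - 2)) := by
          apply Real.exp_le_exp.2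
          linarith
        _ ≤ g := h3
    linarith

/-- **the equivalence** -/
theorem MData.iff [Countable ι] (D : MData lam c Φ) (r : ℤ) {B : ℝ} (hB : 0 < B) :
    ((∀ x ∈ Ioc (0 : ℝ) 1, meromorphicOrderAt Φ (x : ℂ) = 0) ∧ meromorphicOrderAt Φ 0 = r ∧
      meromorphicTrailingCoeffAt Φ 0 = B) ↔
    Tendsto (fun T : ℝ => mean lam c T + r * Real.log T) atTop (𝓝 (Real.log B + r * kap)) := by
  have hinv : ∀ C : ℝ, Tendsto (fun T : ℝ => C / T) atTop (𝓝 0) := fun C =>
    tendsto_const_nhds.div_atTop tendsto_id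
  have reg : ∀ m : ℤ, meromorphicOrderAt Φ 0 = m →
      (∀ x ∈ Ioc (0 : ℝ) 1, meromorphicOrderAt Φ (x : ℂ) = 0) →
      Tendsto (fun T : ℝ => mean lam c T + m * Real.log T) atTop
        (𝓝 (Real.log (meromorphicTrailingCoeffAt Φ 0).re + m * kap)) := by
    intro m hm hz
    obtain ⟨-, -, C, T₀, hC, hT₀, h1⟩ := D.mean_regular hm hz
    rw [tendsto_iff_norm_sub_tendsto_zero]
    refine squeeze_zero' (g := fun T => C / T) (Eventually.of_forall fun X => norm_nonneg _) ?_
      (hinv C)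
    filter_upwards [eventually_ge_atTop T₀] with T hT
    have h2 := h1 T hT
    rw [Real.norm_eq_abs]
    refine le_trans (le_of_eq ?_) h2
    congr 1
    ring
  constructor
  · rintro ⟨h1, h2, h3⟩
    have h4 := reg r h2 h1
    rw [h3, Complex.ofReal_re] at h4
    exact h4
  · intro h
    by_cases hz : ∀ x ∈ Ioc (0 : ℝ) 1, meromorphicOrderAt Φ (x : ℂ) = 0
    · have h00 : (0 : ℝ) ∈ Icc (0 : ℝ) 2 := ⟨le_rfl, by norm_num⟩
      have htop := D.order_ne_top h00
      rw [Complex.ofReal_zero] at htop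
      obtain ⟨m, hm⟩ := WithTop.ne_top_iff_exists.1 htop
      have hm' : meromorphicOrderAt Φ 0 = m := hm.symm
      obtain ⟨him, hpos, -⟩ := D.mean_regular hm' hz
      have h4 := reg m hm' hz
      have h5 := h4.sub h
      have h6 : (fun T : ℝ => mean lam c T + m * Real.log T - (mean lam c T + r * Real.log T)) =
          fun T => ((m : ℝ) - r) * Real.log T := by
        funext T; ring
      rw [h6] at h5
      have hmr : (m : ℝ) - r = 0 := by
        by_contra hne
        have h7 : Tendsto (fun T : ℝ => ((m : ℝ) - r)⁻¹ * (((m : ℝ) - r) * Real.log T)) atTop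
            (𝓝 (((m : ℝ) - r)⁻¹ * _)) := h5.const_mul _
        have h8 : (fun T : ℝ => ((m : ℝ) - r)⁻¹ * (((m : ℝ) - r) * Real.log T)) =
            fun T => Real.log T := by
          funext T; field_simp
        rw [h8] at h7
        exact not_tendsto_nhds_of_tendsto_atTop Real.tendsto_log_atTop _ h7
      have hmr' : m = r := by
        have : (m : ℝ) = r := by linarith
        exact_mod_cast this
      subst hmr'
      have h9 := tendsto_nhds_unique h4 h
      have h10 : Real.log (meromorphicTrailingCoeffAt Φ 0).re = Real.log B := by linarith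
      have h11 := Real.log_injOn_pos (Set.mem_Ioi.2 hpos) (Set.mem_Ioi.2 hB) h10
      refine ⟨hz, hm', ?_⟩
      apply Complex.ext
      · simpa using h11
      · simpa using him
    · exfalso
      obtain ⟨x₀, x₁, h0, h1, h2, h3, m, hm0, hm, h4⟩ := D.rightmost hz
      obtain ⟨-, h5⟩ := D.growth h2 h3 h1 hm0 hm h4
      have h6 := h5 (x₀ / 2) (by linarith)
      -- `mean + r log T` is eventually bounded
      have h7 : ∀ᶠ T : ℝ in atTop, |mean lam c T + r * Real.log T| ≤ |Real.log B + r * kap| + 1 := by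
        have h8 := h.abs
        exact h8.eventually (eventually_le_nhds (by linarith))
      have h8 : ∀ᶠ T : ℝ in atTop, |Real.log B + r * kap| + 1 + |(r : ℝ)| * T <
          Real.exp (Real.exp (x₀ / 2 * T)) := by
        have e1 := lin_le_exp ((2 / x₀) * (|(r : ℝ)| + 1))
        have e2 : Tendsto (fun T : ℝ => x₀ / 2 * T) atTop atTop :=
          tendsto_id.const_mul_atTop (by positivity)
        filter_upwards [e2.eventually e1, eventually_gt_atTop (|Real.log B + r * kap| + 1)]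
          with T h9 h10
        have h11 : 2 / x₀ * (|(r : ℝ)| + 1) * (x₀ / 2 * T) = (|(r : ℝ)| + 1) * T := by
          field_simp
        rw [h11] at h9
        have h12 := Real.add_one_le_exp (Real.exp (x₀ / 2 * T))
        linarith
      obtain ⟨T, h9, h10, h11, h12⟩ := (h6.and (h7.and (h8.and (eventually_ge_atTop (1 : ℝ))))).exists
      have hlogT : Real.log T ≤ T := (Real.log_le_sub_one_of_pos (by linarith)).trans (by linarith)
      have hlogT0 : 0 ≤ Real.log T := Real.log_nonneg h12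
      have h13 : |mean lam c T| ≤ |mean lam c T + r * Real.log T| + |(r : ℝ)| * T := by
        have h14 : mean lam c T = (mean lam c T + r * Real.log T) + (-(r * Real.log T)) := by ring
        nth_rewrite 1 [h14]
        refine (abs_add_le _ _).trans (add_le_add le_rfl ?_)
        rw [abs_neg, abs_mul, abs_of_nonneg hlogT0]
        gcongr
      linarith

end Pool.Agent.W189.LC
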