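import Pool.Agent.H21.L.R_seed8.W189.LC.Kappa

/-! Mittag-Leffler means for a function which is meromorphic near a real segment. -/

set_option autoImplicit false

namespace Pool.Agent.W189.LC

open Complex MeasureTheory Filter Topology Set
open scoped Interval
open Pool.Agent.W189.ML

/-- `Φ = exp (∑ c_i e^{-w lam_i})` for `Re w > 1`, with a meromorphic continuation to a neighbourhood
of `[0, 2]`. -/
structure MData {ι : Type} (lam c : ι → ℝ) (Φ : ℂ → ℂ) : Prop where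
  lam_pos : ∀ i, 0 ≤ lam i
  sum : ∀ σ : ℝ, 1 < σ → Summable fun i => |c i| * Real.exp (-(σ * lam i))
  mero : ∀ x ∈ Icc (0 : ℝ) 2, MeromorphicAt Φ (x : ℂ)
  eq : ∀ w : ℂ, 1 < w.re → Φ w = exp (ser lam c w)

variable {ι : Type} {lam c : ι → ℝ} {Φ : ℂ → ℂ}

theorem ser_neg (lam c : ι → ℝ) (w : ℂ) : ser lam (fun i => -c i) w = -ser lam c w := by
  unfold ser
  rw [← tsum_neg]
  refine tsum_congr fun i => ?_
  push_cast
  ring

theorem mean_neg (lam c : ι → ℝ) (T : ℝ) : mean lam (fun i => -c i) T = -mean lam c T := by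
  unfold mean
  rw [← tsum_neg]
  refine tsum_congr fun i => ?_
  ring

theorem ser_real (lam c : ι → ℝ) (x : ℝ) : (ser lam c x).im = 0 := by
  have h1 : ser lam c x = ((∑' i, c i * Real.exp (-(x * lam i)) : ℝ) : ℂ) := by
    unfold ser
    rw [Complex.ofReal_tsum]
    refine tsum_congr fun i => ?_
    push_cast
    rfl
  rw [h1, Complex.ofReal_im]

theorem MData.sdata (D : MData lam c Φ) : SData lam (fun i => -c i) (fun _ => 0) where
  lam_pos := D.lam_pos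
  sum := by
    simp only [abs_neg]
    exact D.sum 2 (by norm_num)
  Gd := fun _ _ => differentiableAt_const _
  Gb := ⟨0, fun _ _ _ => by simp⟩
  G2 := by simp

theorem MData.ser_diff (D : MData lam c Φ) {w : ℂ} (hw : 1 < w.re) :
    AnalyticAt ℂ (ser lam c) w := by
  set σ : ℝ := (1 + w.re) / 2 with hσ
  have hσ1 : 1 < σ := by rw [hσ]; linarith
  have hσw : σ < w.re := by rw [hσ]; linarith
  have hopen : IsOpen {z : ℂ | σ < z.re} := isOpen_lt continuous_const Complex.continuous_re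
  have h1 : DifferentiableOn ℂ (ser lam c) {z : ℂ | σ < z.re} := by
    unfold ser
    refine differentiableOn_tsum_of_summable_norm (D.sum σ hσ1) (fun i => ?_) hopen
      (fun i z hz => ?_)
    · exact Differentiable.differentiableOn (by fun_prop)
    · rw [norm_mul, Complex.norm_real, Real.norm_eq_abs, Complex.norm_exp]
      refine mul_le_mul_of_nonneg_left ?_ (abs_nonneg _)
      apply Real.exp_le_exp.2
      have h2 : (-(z * lam i)).re = -(z.re * lam i) := by rw [Complex.neg_re, Complex.re_mul_ofReal]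
      rw [h2]
      have hz' : σ < z.re := hz
      have := D.lam_pos i
      nlinarith
  exact h1.analyticAt (hopen.mem_nhds hσw)

theorem MData.eq_near (D : MData lam c Φ) {w : ℂ} (hw : 1 < w.re) :
    Φ =ᶠ[𝓝 w] fun z => exp (ser lam c z) := by
  have hopen : IsOpen {z : ℂ | 1 < z.re} := isOpen_lt continuous_const Complex.continuous_re
  filter_upwards [hopen.mem_nhds hw] with z hz
  exact D.eq z hz

theorem MData.analytic_right (D : MData lam c Φ) {w : ℂ} (hw : 1 < w.re) : AnalyticAt ℂ Φ w :=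
  ((D.ser_diff hw).cexp).congr (D.eq_near hw).symm

theorem MData.ne_zero (D : MData lam c Φ) {w : ℂ} (hw : 1 < w.re) : Φ w ≠ 0 := by
  rw [D.eq w hw]
  exact Complex.exp_ne_zero _

theorem MData.order_right (D : MData lam c Φ) {w : ℂ} (hw : 1 < w.re) :
    meromorphicOrderAt Φ w = 0 := by
  rw [(D.analytic_right hw).meromorphicOrderAt_eq,
    (D.analytic_right hw).analyticOrderAt_eq_zero.2 (D.ne_zero hw)]
  rfl

/-- splitting off the factor `(w - x₀)^m` -/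
theorem MData.factor (D : MData lam c Φ) {x₀ x₁ : ℝ} (h0 : 0 ≤ x₁) (h01 : x₁ ≤ x₀) (h1 : x₀ ≤ 1)
    {m : ℤ} (hm : meromorphicOrderAt Φ (x₀ : ℂ) = m)
    (hz : ∀ x ∈ Icc x₁ 2, x ≠ x₀ → meromorphicOrderAt Φ (x : ℂ) = 0) :
    ∃ Q : ℂ → ℂ, (∀ x ∈ Icc x₁ 2, AnalyticAt ℂ Q (x : ℂ)) ∧
      (∀ x ∈ Icc x₁ 2, (Q (x : ℂ)).im = 0 ∧ 0 < (Q (x : ℂ)).re) ∧
      (∀ᶠ w in 𝓝 (2 : ℂ), exp (ser lam c w) = (w - x₀) ^ m * Q w) ∧
      meromorphicTrailingCoeffAt Φ (x₀ : ℂ) = Q (x₀ : ℂ) := by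
  set U : Set ℂ := {z | MeromorphicAt Φ z} with hU
  set g : ℂ → ℂ := fun w => (w - x₀) ^ (-m) * Φ w with hg
  have hgm : MeromorphicOn g U := fun z hz' => by
    have h2 : MeromorphicAt Φ z := hz'
    have h3 : MeromorphicAt (fun w : ℂ => (w - x₀) ^ (-m)) z := by fun_prop
    exact h3.mul h2
  have hmem : ∀ x ∈ Icc x₁ 2, (x : ℂ) ∈ U := fun x hx => D.mero x ⟨h0.trans hx.1, hx.2⟩
  set Q : ℂ → ℂ := toMeromorphicNFOn g U with hQ
  have hNF : MeromorphicNFOn Q U := meromorphicNFOn_toMeromorphicNFOn g U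
  have hord : ∀ x ∈ Icc x₁ 2, meromorphicOrderAt Q (x : ℂ) = 0 := by
    intro x hx
    rw [hQ, meromorphicOrderAt_toMeromorphicNFOn hgm (hmem x hx), hg]
    have h3 : MeromorphicAt (fun w : ℂ => (w - x₀) ^ (-m)) (x : ℂ) := by fun_prop
    have h4 : meromorphicOrderAt (fun w => (w - x₀) ^ (-m) * Φ w) (x : ℂ) =
        meromorphicOrderAt (fun w : ℂ => (w - x₀) ^ (-m)) (x : ℂ) + meromorphicOrderAt Φ (x : ℂ) :=
      meromorphicOrderAt_mul h3 (hmem x hx)
    rw [h4]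
    by_cases hxx : x = x₀
    · rw [hxx, hm]
      have h5 : meromorphicOrderAt (fun w : ℂ => (w - x₀) ^ (-m)) (x₀ : ℂ) = ((-m : ℤ) : WithTop ℤ) := by
        have := meromorphicOrderAt_zpow_id_sub_const (𝕜 := ℂ) (x := (x₀ : ℂ)) (n := -m)
        exact this
      rw [h5]
      norm_cast
      simp
    · rw [hz x hx hxx, add_zero]
      have hne : (x : ℂ) - x₀ ≠ 0 := by
        rw [sub_ne_zero]
        exact_mod_cast hxx
      have h5 : AnalyticAt ℂ (fun w : ℂ => (w - x₀) ^ (-m)) (x : ℂ) :=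
        AnalyticAt.zpow (by fun_prop) hne
      rw [h5.meromorphicOrderAt_eq, h5.analyticOrderAt_eq_zero.2 (zpow_ne_zero _ hne)]
      rfl
  have hQa : ∀ x ∈ Icc x₁ 2, AnalyticAt ℂ Q (x : ℂ) := fun x hx =>
    (hNF (hmem x hx)).meromorphicOrderAt_nonneg_iff_analyticAt.1 (hord x hx).ge
  have hQ0 : ∀ x ∈ Icc x₁ 2, Q (x : ℂ) ≠ 0 := fun x hx =>
    (hNF (hmem x hx)).meromorphicOrderAt_eq_zero_iff.1 (hord x hx)
  have hQne : ∀ x ∈ Icc x₁ 2, Q =ᶠ[𝓝[≠] (x : ℂ)] g := fun x hx =>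
    hgm.toMeromorphicNFOn_eq_self_on_nhdsNE (hmem x hx)
  -- on `(1, 2]` the functions agree
  have hQg : ∀ x ∈ Icc x₁ 2, 1 < x → Q =ᶠ[𝓝 (x : ℂ)] g := by
    intro x hx hx1
    have hne : (x : ℂ) - x₀ ≠ 0 := by
      rw [sub_ne_zero]
      intro h
      have : x = x₀ := by exact_mod_cast h
      linarith
    have h5 : AnalyticAt ℂ (fun w : ℂ => (w - x₀) ^ (-m)) (x : ℂ) :=
      AnalyticAt.zpow (by fun_prop) hne
    have h6 : AnalyticAt ℂ g (x : ℂ) := h5.mul (D.analytic_right (by simpa using hx1))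
    exact ((hQa x hx).continuousAt.eventuallyEq_nhds_iff_eventuallyEq_nhdsNE h6.continuousAt).1
      (hQne x hx)
  have hval : ∀ x ∈ Icc x₁ 2, 1 < x → Q (x : ℂ) =
      (((x - x₀) ^ (-m) * Real.exp (ser lam c x).re : ℝ) : ℂ) := by
    intro x hx hx1
    rw [(hQg x hx hx1).eq_of_nhds, hg]
    simp only
    rw [D.eq x (by simpa using hx1)]
    have h6 : ser lam c x = ((ser lam c x).re : ℂ) := by
      apply Complex.ext <;> simp [ser_real]
    rw [h6, ← Complex.ofReal_exp]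
    push_cast
    simp
  -- `Q` is real on the segment
  have hreal : ∀ x ∈ Icc x₁ 2, (Q (x : ℂ)).im = 0 := by
    have h6 : AnalyticOnNhd ℝ (fun x : ℝ => (Q (x : ℂ)).im) (Icc x₁ 2) := by
      intro x hx
      have h7 : AnalyticAt ℝ Q (x : ℂ) := (hQa x hx).restrictScalars
      have h8 : AnalyticAt ℝ (fun x : ℝ => (x : ℂ)) x := Complex.ofRealCLM.analyticAt x
      have h9 : AnalyticAt ℝ (fun x : ℝ => Q (x : ℂ)) x := AnalyticAt.comp (g := Q) h7 h8
      exact (Complex.imCLM.analyticAt _).comp h9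
    have h7 : (fun x : ℝ => (Q (x : ℂ)).im) =ᶠ[𝓝 (3 / 2)] 0 := by
      have h8 : Ioo (1 : ℝ) 2 ∈ 𝓝 (3 / 2 : ℝ) := Ioo_mem_nhds (by norm_num) (by norm_num)
      filter_upwards [h8] with x hx
      show (Q (x : ℂ)).im = 0
      rw [hval x ⟨by linarith [hx.1], hx.2.le⟩ hx.1, Complex.ofReal_im]
    have h8 := h6.eqOn_zero_of_preconnected_of_eventuallyEq_zero isPreconnected_Icc
      (show (3 / 2 : ℝ) ∈ Icc x₁ 2 from ⟨by linarith, by norm_num⟩) h7
    exact fun x hx => h8 hx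
  have h22 : (2 : ℝ) ∈ Icc x₁ 2 := ⟨by linarith, le_rfl⟩
  have hpos2 : 0 < (Q ((2 : ℝ) : ℂ)).re := by
    rw [hval 2 h22 (by norm_num), Complex.ofReal_re]
    have : 0 < 2 - x₀ := by linarith
    positivity
  have hpos : ∀ x ∈ Icc x₁ 2, 0 < (Q (x : ℂ)).re := by
    intro x hx
    by_contra hneg
    push Not at hneg
    have hc : ContinuousOn (fun x : ℝ => (Q (x : ℂ)).re) (Icc x 2) := by
      intro y hy
      have h7 : ContinuousAt Q (y : ℂ) := (hQa y ⟨hx.1.trans hy.1, hy.2⟩).continuousAt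
      have h8 : ContinuousAt (fun x : ℝ => Q (x : ℂ)) y :=
        ContinuousAt.comp (g := Q) (f := fun x : ℝ => (x : ℂ)) h7 (by fun_prop)
      exact (Complex.continuous_re.continuousAt.comp h8).continuousWithinAt
    obtain ⟨y, hy, hy0⟩ := intermediate_value_Icc hx.2 hc (show (0 : ℝ) ∈ Icc _ _ from ⟨hneg, hpos2.le⟩)
    have hyI : y ∈ Icc x₁ 2 := ⟨hx.1.trans hy.1, hy.2⟩
    refine hQ0 y hyI ?_
    apply Complex.ext
    · simpa using hy0
    · simpa using hreal y hyI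
  refine ⟨Q, hQa, fun x hx => ⟨hreal x hx, hpos x hx⟩, ?_, ?_⟩
  · have h7 := hQg 2 h22 (by norm_num)
    have h8 := D.eq_near (w := ((2 : ℝ) : ℂ)) (by simp)
    have h9 : ∀ᶠ w : ℂ in 𝓝 (((2 : ℝ) : ℂ)), w ≠ (x₀ : ℂ) := by
      refine isOpen_ne.mem_nhds ?_
      intro h
      have : (2 : ℝ) = x₀ := by exact_mod_cast h
      linarith
    have h10 : ((2 : ℝ) : ℂ) = 2 := by norm_num
    rw [h10] at h7 h8 h9
    filter_upwards [h7, h8, h9] with w e1 e2 e3
    rw [e1, hg]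
    simp only
    rw [← e2, ← mul_assoc, ← zpow_add₀ (sub_ne_zero.2 e3)]
    simp
  · have hx0 : x₀ ∈ Icc x₁ 2 := ⟨h01, by linarith⟩
    refine (hQa x₀ hx0).meromorphicTrailingCoeffAt_of_ne_zero_of_eq_nhdsNE (n := m) (hQ0 x₀ hx0) ?_
    filter_upwards [hQne x₀ hx0, self_mem_nhdsWithin] with w e1 e2
    have e3 : w - x₀ ≠ 0 := sub_ne_zero.2 e2
    rw [e1, hg]
    simp only
    rw [smul_eq_mul, ← mul_assoc, ← zpow_add₀ e3]
    simp

theorem mem_slit {z : ℂ} (h : z.im = 0 ∧ 0 < z.re) : z ∈ slitPlane := Or.inl h.2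

theorem log_im {z : ℂ} (h : z.im = 0 ∧ 0 < z.re) : (log z).im = 0 ∧ log z = Real.log z.re := by
  have h1 : z = (z.re : ℂ) := by apply Complex.ext <;> simp [h.1]
  have h2 : log z = Real.log z.re := by
    rw [h1, ← Complex.ofReal_log h.2.le]
    simp
  exact ⟨by rw [h2, Complex.ofReal_im], h2⟩

/-- **No zeros or poles in `(0, 1]`**: the mean up to `O(1/T)`. -/
theorem MData.mean_regular [Countable ι] (D : MData lam c Φ) {m : ℤ}
    (hm : meromorphicOrderAt Φ 0 = m) (hz : ∀ x ∈ Ioc (0 : ℝ) 1, meromorphicOrderAt Φ (x : ℂ) = 0) :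
    (meromorphicTrailingCoeffAt Φ 0).im = 0 ∧ 0 < (meromorphicTrailingCoeffAt Φ 0).re ∧
    ∃ C T₀ : ℝ, 0 ≤ C ∧ 1 ≤ T₀ ∧ ∀ T ≥ T₀,
      |mean lam c T - (Real.log (meromorphicTrailingCoeffAt Φ 0).re - m * (Real.log T - kap))| ≤
        C / T := by
  have hz' : ∀ x ∈ Icc (0 : ℝ) 2, x ≠ 0 → meromorphicOrderAt Φ (x : ℂ) = 0 := by
    intro x hx hx0
    by_cases h : x ≤ 1
    · exact hz x ⟨lt_of_le_of_ne hx.1 (Ne.symm hx0), h⟩
    · push Not at h
      exact D.order_right (by simpa using h)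
  obtain ⟨Q, hQa, hQr, hQ2, htr⟩ := D.factor (x₀ := 0) (x₁ := 0) le_rfl le_rfl zero_le_one
    (m := m) (by simpa using hm) hz'
  rw [Complex.ofReal_zero] at htr
  have h00 : (0 : ℝ) ∈ Icc (0 : ℝ) 2 := ⟨le_rfl, by norm_num⟩
  have hQ0 := hQr 0 h00
  rw [Complex.ofReal_zero] at hQ0
  rw [htr]
  refine ⟨hQ0.1, hQ0.2, ?_⟩
  obtain ⟨C, T₀, hC, hT₀, h1⟩ := refined D.sdata m Q hQa (fun x hx => mem_slit (hQr x hx))
    (by
      have := (log_im (hQr 2 ⟨by norm_num, le_rfl⟩)).1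
      simpa using this) (by
      filter_upwards [hQ2] with w hw
      rw [ser_neg, neg_neg, hw]
      simp) (by
      have h2 : ser lam (fun i => -c i) = fun w => -ser lam c w := funext fun w => ser_neg lam c w
      rw [h2]
      exact (D.ser_diff (w := 2) (by norm_num)).continuousAt.neg)
  refine ⟨C, T₀, hC, hT₀, fun T hT => ?_⟩
  have h2 := h1 T hT
  rw [mean_neg, J_log_eq, (log_im hQ0).2] at h2
  have h3 : ((-mean lam c T : ℝ) : ℂ) - (m * (Real.log T - kap) - Real.log (Q 0).re) =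
      ((-(mean lam c T - (Real.log (Q 0).re - m * (Real.log T - kap))) : ℝ) : ℂ) := by
    push_cast
    ring
  rw [h3, Complex.norm_real, Real.norm_eq_abs, abs_neg] at h2
  exact h2

/-- **A zero or pole in `(0, 1]`.** -/
theorem MData.mean_singular [Countable ι] (D : MData lam c Φ) {x₀ x₁ : ℝ} (h0 : 0 ≤ x₁)
    (h01 : x₁ ≤ x₀) (h1 : x₀ ≤ 1) {m : ℤ} (hm : meromorphicOrderAt Φ (x₀ : ℂ) = m)
    (hz : ∀ x ∈ Icc x₁ 2, x ≠ x₀ → meromorphicOrderAt Φ (x : ℂ) = 0) :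
    ∃ C T₀ : ℝ, ∀ T ≥ T₀, |mean lam c T + m * (Real.log T + grow (x₀ * T))| ≤
      C * Real.exp (Real.exp (x₁ * T)) := by
  obtain ⟨Q, hQa, hQr, hQ2, htr⟩ := D.factor h0 h01 h1 hm hz
  obtain ⟨C, T₀, h2⟩ := D.sdata.main h0 h01 h1 m Q hQa (fun x hx => mem_slit (hQr x hx))
    (by
      have := (log_im (hQr 2 ⟨by linarith, le_rfl⟩)).1
      simpa using this) (by
      filter_upwards [hQ2] with w hw
      rw [ser_neg, zero_sub, neg_neg, hw]) (by
      have h2 : ser lam (fun i => -c i) = fun w => -ser lam c w := funext fun w => ser_neg lam c w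
      rw [h2]
      exact (D.ser_diff (w := 2) (by norm_num)).continuousAt.neg)
  refine ⟨C, T₀, fun T hT => ?_⟩
  have h3 := h2 T hT
  rw [mean_neg] at h3
  have h4 : -mean lam c T - m * (Real.log T + grow (x₀ * T)) =
      -(mean lam c T + m * (Real.log T + grow (x₀ * T))) := by ring
  rwa [h4, abs_neg] at h3

end Pool.Agent.W189.LC
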